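import Pool.Agent.L0h79.AJ.Stm

/-!
# Subspaces of multiplicatively independent integers (module DISJ of helper79)
-/

set_option autoImplicit false

namespace Pool.Agent.L0h78.AJ

open Filter Topology Pool.Agent.TH796.AL Pool.Agent.L0h79.AJ
theorem zpow_sum' {ι : Type} [DecidableEq ι] (a : ℚ) (ha : a ≠ 0) (s : Finset ι) (f : ι → ℤ) :
    ∏ i ∈ s, a ^ f i = a ^ ∑ i ∈ s, f i := by
  induction s using Finset.induction_on with
  | empty => simp
  | insert j s hj ih => rw [Finset.prod_insert hj, Finset.sum_insert hj, ih, zpow_add₀ ha]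

theorem disj : S_DISJ := by
  classical
  intro k m B b₀ b e₀ e hb₀ hb hM
  rw [Submodule.disjoint_def]
  intro x hx hx'
  rw [Submodule.mem_span_singleton] at hx
  obtain ⟨c, rfl⟩ := hx
  by_contra hne
  have hc : c ≠ 0 := by
    rintro rfl
    exact hne (zero_smul _ _)
  have h1 : (fun i => (e₀ i : ℝ)) ∈ Submodule.span ℝ (Set.range fun l => fun i => (e l i : ℝ)) := by
    have h2 := Submodule.smul_mem _ c⁻¹ hx'
    rwa [smul_smul, inv_mul_cancel₀ hc, one_smul] at h2
  rw [Submodule.mem_span_range_iff_exists_fun] at h1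
  obtain ⟨r, hr⟩ := h1
  obtain ⟨φ, hφ⟩ := LinearMap.exists_leftInverse_of_injective
    (LinearMap.toSpanSingleton ℚ ℝ 1) (by
      rw [LinearMap.ker_eq_bot]
      intro a b hab
      have h3 : (a : ℝ) = (b : ℝ) := by
        simpa [LinearMap.toSpanSingleton_apply] using hab
      exact_mod_cast h3)
  have hφ1 : ∀ q : ℚ, φ (q : ℝ) = q := by
    intro q
    have h3 := LinearMap.congr_fun hφ q
    simpa [LinearMap.toSpanSingleton_apply] using h3
  have hφn : ∀ (a : ℝ) (n : ℕ), φ (a * n) = φ a * n := by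
    intro a n
    have h3 : a * n = (n : ℕ) • a := by rw [nsmul_eq_mul, mul_comm]
    rw [h3, map_nsmul, nsmul_eq_mul, mul_comm]
  have hq : ∀ i, (e₀ i : ℚ) = ∑ l, φ (r l) * e l i := by
    intro i
    have h3 := congrArg φ (congrFun hr i)
    simp only [Finset.sum_apply, Pi.smul_apply, smul_eq_mul] at h3
    rw [map_sum] at h3
    have h4 := hφ1 (e₀ i : ℚ)
    rw [Rat.cast_natCast] at h4
    rw [h4] at h3
    rw [← h3]
    exact Finset.sum_congr rfl fun l _ => hφn _ _
  -- common denominator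
  let s : ℕ := ∏ l, (φ (r l)).den
  have hs : s ≠ 0 := Finset.prod_ne_zero_iff.2 fun l _ => (φ (r l)).den_nz
  have hint : ∀ l, ∃ t : ℤ, (s : ℚ) * φ (r l) = t := by
    intro l
    have h3 : (φ (r l)).den ∣ s := Finset.dvd_prod_of_mem _ (Finset.mem_univ l)
    obtain ⟨w, hw⟩ := h3
    refine ⟨w * (φ (r l)).num, ?_⟩
    rw [hw]
    push_cast
    have h4 : ((φ (r l)).den : ℚ) * φ (r l) = (φ (r l)).num := by
      rw [mul_comm]
      exact Rat.mul_den_eq_num _
    calc ((φ (r l)).den : ℚ) * w * φ (r l) = w * (((φ (r l)).den : ℚ) * φ (r l)) := by ring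
      _ = _ := by rw [h4]
  choose t ht using hint
  have hz : ∀ i, (s : ℤ) * e₀ i = ∑ l, t l * e l i := by
    intro i
    have h3 : ((s : ℤ) * e₀ i : ℚ) = ((∑ l, t l * e l i : ℤ) : ℚ) := by
      push_cast
      rw [hq i, Finset.mul_sum]
      exact Finset.sum_congr rfl fun l _ => by rw [← ht l]; ring
    exact_mod_cast h3
  have hP0 : ∀ i, (B.P i : ℚ) ≠ 0 := by
    intro i
    have := B.two i
    have : B.P i ≠ 0 := by omega
    exact_mod_cast this
  have hb0' : ∀ z : ℤ, (b₀ : ℚ) ^ z = ∏ i, (B.P i : ℚ) ^ (z * e₀ i) := by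
    intro z
    rw [hb₀]
    push_cast
    rw [← Finset.prod_zpow]
    refine Finset.prod_congr rfl fun i _ => ?_
    rw [← zpow_natCast, ← zpow_mul, mul_comm]
  have hb' : ∀ (l : Fin k) (z : ℤ), (b l : ℚ) ^ z = ∏ i, (B.P i : ℚ) ^ (z * e l i) := by
    intro l z
    rw [hb l]
    push_cast
    rw [← Finset.prod_zpow]
    refine Finset.prod_congr rfl fun i _ => ?_
    rw [← zpow_natCast, ← zpow_mul, mul_comm]
  have hfin := hM (s : ℤ) (fun l => -t l) (by
    rw [hb0']
    simp only [hb']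
    rw [Finset.prod_comm, ← Finset.prod_mul_distrib]
    refine Finset.prod_eq_one fun i _ => ?_
    have h4 : ∏ l, (B.P i : ℚ) ^ (-t l * (e l i : ℤ)) = (B.P i : ℚ) ^ (∑ l, -t l * (e l i : ℤ)) :=
      zpow_sum' _ (hP0 i) _ _
    rw [h4, ← zpow_add₀ (hP0 i), hz i, ← Finset.sum_add_distrib]
    rw [Finset.sum_eq_zero fun l _ => by ring]
    exact zpow_zero _)
  exact hs (by exact_mod_cast hfin)

end Pool.Agent.L0h78.AJ
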