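import Pool.Agent.L0h79.AJ.Stm

/-!
# A projection with a bound for the valuations (module PROJ of helper79)
-/

set_option autoImplicit false

namespace Pool.Agent.L0h78.AJ

open Filter Topology Pool.Agent.TH796.AL Pool.Agent.L0h79.AJ

theorem proj : S_PROJ := by
  classical
  intro m B V W hVW
  obtain ⟨U, hVU, hU⟩ : ∃ U : Submodule ℝ (Fin m → ℝ), V ≤ U ∧ IsCompl U W :=
    hVW.exists_isCompl
  let π : (Fin m → ℝ) →ₗ[ℝ] (Fin m → ℝ) :=
    W.subtype.comp (Submodule.projectionOnto W U hU.symm)
  let Λ : ℝ := ∑ i, Real.log (B.P i)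
  let c0 : ℝ := ‖LinearMap.toContinuousLinearMap π‖
  have hlog2 : 0 < Real.log 2 := Real.log_pos (by norm_num)
  have hP : ∀ i, Real.log 2 ≤ Real.log (B.P i) := fun i =>
    Real.log_le_log (by norm_num) (by exact_mod_cast B.two i)
  have hP0 : ∀ i, 0 ≤ Real.log (B.P i) := fun i => hlog2.le.trans (hP i)
  have hΛ : 0 ≤ Λ := Finset.sum_nonneg fun i _ => hP0 i
  have hc0 : 0 ≤ c0 := norm_nonneg _
  refine ⟨π, 1 + c0 * Λ / Real.log 2, ?_, ?_, ?_, ?_, ?_⟩
  · have : 0 ≤ c0 * Λ / Real.log 2 := by positivity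
    linarith
  · intro v hv
    have h1 : Submodule.projectionOnto W U hU.symm v = 0 :=
      (Submodule.projectionOnto_apply_eq_zero_iff hU.symm).2 (hVU hv)
    show W.subtype (Submodule.projectionOnto W U hU.symm v) = 0
    rw [h1, map_zero]
  · intro w hw
    have h1 := Submodule.projectionOnto_apply_left hU.symm ⟨w, hw⟩
    show W.subtype (Submodule.projectionOnto W U hU.symm w) = w
    have h2 : Submodule.projectionOnto W U hU.symm w = ⟨w, hw⟩ := h1
    rw [h2]
    rfl
  · intro x
    exact (Submodule.projectionOnto W U hU.symm x).2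
  · intro c x hx
    have hc : 0 ≤ c := (abs_nonneg _).trans (hx none)
    have hxn : ‖x‖ ≤ c / Real.log 2 := by
      rw [pi_norm_le_iff_of_nonneg (by positivity)]
      intro i
      have h1 := hx (some i)
      have h2 : |x i * Real.log (B.P i)| ≤ c := h1
      rw [abs_mul, abs_of_nonneg (hP0 i)] at h2
      rw [Real.norm_eq_abs, le_div_iff₀ hlog2]
      exact (mul_le_mul_of_nonneg_left (hP i) (abs_nonneg _)).trans h2
    have hy : ‖π x‖ ≤ c0 * (c / Real.log 2) := by
      have h1 := (LinearMap.toContinuousLinearMap π).le_opNorm x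
      exact h1.trans (mul_le_mul_of_nonneg_left hxn hc0)
    have hyi : ∀ i, |π x i| ≤ c0 * (c / Real.log 2) := fun i =>
      (norm_le_pi_norm (π x) i).trans hy
    have hb : ∑ i, |π x i| * Real.log (B.P i) ≤ c0 * (c / Real.log 2) * Λ := by
      rw [Finset.mul_sum]
      exact Finset.sum_le_sum fun i _ => mul_le_mul_of_nonneg_right (hyi i) (hP0 i)
    have hfin : c0 * (c / Real.log 2) * Λ ≤ (1 + c0 * Λ / Real.log 2) * c := by
      have e : c0 * (c / Real.log 2) * Λ = c0 * Λ / Real.log 2 * c := by ring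
      rw [e, add_mul, one_mul]
      linarith
    intro u
    refine le_trans ?_ hfin
    refine le_trans ?_ hb
    cases u with
    | none =>
      show |-∑ i, π x i * Real.log (B.P i)| ≤ _
      rw [abs_neg]
      refine (Finset.abs_sum_le_sum_abs _ _).trans (le_of_eq ?_)
      exact Finset.sum_congr rfl fun i _ => by rw [abs_mul, abs_of_nonneg (hP0 i)]
    | some i =>
      show |π x i * Real.log (B.P i)| ≤ _
      rw [abs_mul, abs_of_nonneg (hP0 i)]
      exact Finset.single_le_sum (f := fun i => |π x i| * Real.log (B.P i))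
        (fun j _ => mul_nonneg (abs_nonneg _) (hP0 j)) (Finset.mem_univ i)


end Pool.Agent.L0h78.AJ
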